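import Pool.Agent.N549.DC.Tor2
import Pool.Agent.N572.DC.Lenst
import Pool.Agent.N862.DC.Pairg
import Pool.Agent.N624.DC.Mom2
import Pool.Agent.N767.DC.VAR
import Pool.Agent.N344.AB.Canx

/-!
# Decorrelation of hard spheres in high dimension

Hard spheres of diameter `r` on the flat torus of dimension `d` and volume one, grand canonical
ensemble; `V` is the volume of the ball of radius `r`. At the activity `s e^s / V` the density is
`s / V` up to a relative error `e^{-a d}` for `s ≤ (X - ε) d`, `X = log (2 / √3)`. The pair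
correlation function is at least `1 - e^{-a d}` at all allowed distances in the same range, and at
most `1 + e^{-a d}` for `s ≤ (X / 3 - ε) d`, uniformly in the volume. In the whole range the mean
measure of the pairs is close to the square of the mean measure of the points in total variation, so
there is no long range order.
-/

open MeasureTheory Metric Filter Set

namespace Pool.Agent.Results.MP_09cbbd_mp.Decorrelation

/-- The flat torus `(ℝ/ℤ)^d`. -/
abbrev Torus (d : ℕ) : Type := Fin d → UnitAddCircle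

/-- The volume of the torus, of total mass one. -/
noncomputable def vol (d : ℕ) : Measure (Torus d) :=
  Measure.pi fun _ => (AddCircle.haarAddCircle : Measure UnitAddCircle)

/-- The Euclidean distance on the torus. -/
noncomputable def tdist {d : ℕ} (x y : Torus d) : ℝ := √(∑ i, ‖x i - y i‖ ^ 2)

/-- The volume of the ball of radius `r` of `ℝ^d`. -/
noncomputable def ballVol (d : ℕ) (r : ℝ) : ℝ :=
  volume.real (ball (0 : EuclideanSpace ℝ (Fin d)) r)

/-- The volume of the configurations of `k` labelled points of the torus which have mutual distances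
at least `r` and distances at least `r` from the points of `P`. -/
noncomputable def confVol (d : ℕ) (r : ℝ) (P : Set (Torus d)) (k : ℕ) : ℝ :=
  (Measure.pi fun _ : Fin k => vol d).real
    {x | (∀ i j, i ≠ j → r ≤ tdist (x i) (x j)) ∧ ∀ i, ∀ p ∈ P, r ≤ tdist (x i) p}

/-- The grand canonical partition function at the activity `lam` in the presence of the points of
`P`. -/
noncomputable def Z (d : ℕ) (r lam : ℝ) (P : Set (Torus d)) : ℝ :=
  ∑' k : ℕ, lam ^ k / k.factorial * confVol d r P k

/-- The mean number of points. -/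
noncomputable def meanNumber (d : ℕ) (r lam : ℝ) : ℝ :=
  (∑' k : ℕ, k * (lam ^ k / k.factorial * confVol d r ∅ k)) / Z d r lam ∅

/-- The density of the points at `x`. -/
noncomputable def rho1 (d : ℕ) (r lam : ℝ) (x : Torus d) : ℝ :=
  lam * Z d r lam {x} / Z d r lam ∅

/-- The joint density of the pairs of points at `x` and `y` (of distance at least `r`). -/
noncomputable def rho2 (d : ℕ) (r lam : ℝ) (x y : Torus d) : ℝ :=
  lam ^ 2 * Z d r lam {x, y} / Z d r lam ∅

open scoped Classical in
/-- The mean number of the ordered pairs of different points of the gas which belong to `B`. -/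
noncomputable def meanPairs (d : ℕ) (r lam : ℝ) (B : Set (Torus d × Torus d)) : ℝ :=
  (∑' k : ℕ, lam ^ k / k.factorial *
    ∫ x in {x : Fin k → Torus d | ∀ i j, i ≠ j → r ≤ tdist (x i) (x j)},
      (Finset.card {p : Fin k × Fin k | p.1 ≠ p.2 ∧ (x p.1, x p.2) ∈ B} : ℝ)
        ∂(Measure.pi fun _ : Fin k => vol d)) / Z d r lam ∅

/-- The exponent. -/
noncomputable def X : ℝ := Real.log (2 / √3)

section aux

open Pool.Agent.N549.HG Pool.Agent.N549.AB Pool.Agent.N549.DC

variable {d : ℕ} {r : ℝ}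

theorem key (hr : 0 < r) (x y : Torus d) : r ≤ tdist x y ↔ far d r x y = 1 := by
  unfold tdist far sqd
  rw [Real.le_sqrt' hr]
  split_ifs with h
  · exact ⟨fun _ => rfl, fun _ => h⟩
  · exact ⟨fun h' => absurd h' h, fun h' => absurd h' zero_ne_one⟩

theorem key_symm (x y : Torus d) : tdist x y = tdist y x := by
  unfold tdist
  congr 1
  exact Finset.sum_congr rfl fun i _ => by rw [norm_sub_rev]

theorem set_eq (hr : 0 < r) (k : ℕ) :
    {x : Fin k → Torus d | ∀ i j, i ≠ j → r ≤ tdist (x i) (x j)} =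
      {x | ∀ i j, i < j → far d r (x i) (x j) = 1} := by
  ext x
  simp only [mem_ofPred_eq]
  constructor
  · intro h i j hij
    exact (key hr _ _).1 (h i j hij.ne)
  · intro h i j hij
    rcases lt_or_gt_of_ne hij with h2 | h2
    · exact (key hr _ _).2 (h i j h2)
    · rw [key_symm]
      exact (key hr _ _).2 (h j i h2)

theorem Z_gen (hr : 0 < r) (lam : ℝ) (hl : 0 ≤ lam) (P : Set (Torus d))
    (G : Torus d → ENNReal) (hG : Measurable G) (h01 : ∀ x, G x = 0 ∨ G x = 1)
    (hGP : ∀ x, G x = 1 ↔ ∀ p ∈ P, r ≤ tdist x p) :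
    Z d r lam P = (Pool.Agent.N549.HG.Z (vol d) (far d r)
      (fun y => ENNReal.ofReal lam * G y)).toReal := by
  have hp : IsProbabilityMeasure (Pool.Agent.N549.HG.vol d) := inferInstance
  have h := Pool.Agent.N862.DC.pairg (Torus d) (Pool.Agent.N549.HG.vol d) (far d r) (far_adm d r)
    (fun x y => by unfold far; split_ifs <;> simp) G hG h01 lam hl
  refine Eq.trans ?_ h.symm
  unfold Z confVol
  refine tsum_congr fun k => ?_
  congr 2
  ext x
  simp only [mem_ofPred_eq]
  have h1 : (∀ i j, i ≠ j → r ≤ tdist (x i) (x j)) ↔ ∀ i j, i < j → far d r (x i) (x j) = 1 := by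
    have := set_eq (d := d) hr k
    exact Set.ext_iff.1 this x
  rw [h1]
  exact and_congr_right fun _ => forall_congr' fun i => (hGP (x i)).symm

theorem far_meas (hr : 0 < r) (x : Torus d) : Measurable (far d r x) :=
  (far_adm d r).meas.of_uncurry_left

theorem Z_one (hr : 0 < r) (lam : ℝ) (hl : 0 ≤ lam) (x : Torus d) :
    Z d r lam {x} = Pool.Agent.N549.AB.Z1 (vol d) (far d r) lam x := by
  refine Z_gen hr lam hl {x} (far d r x) (far_meas hr x)
    (fun y => by unfold far; split_ifs <;> simp) (fun y => ?_)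
  rw [← key hr, key_symm]
  simp

theorem Z_two (hr : 0 < r) (lam : ℝ) (hl : 0 ≤ lam) (x y : Torus d) :
    Z d r lam {x, y} = Pool.Agent.N549.AB.Z2 (vol d) (far d r) lam x y := by
  refine Z_gen hr lam hl {x, y} (fun z => far d r x z * far d r y z)
    ((far_meas hr x).mul (far_meas hr y))
    (fun z => by unfold far; split_ifs <;> simp) (fun z => ?_)
  have h1 : far d r x z * far d r y z = 1 ↔ far d r x z = 1 ∧ far d r y z = 1 := by
    unfold far
    split_ifs <;> simp
  rw [h1, ← key hr, ← key hr, key_symm x z, key_symm y z]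
  simp

theorem conf_empty (hr : 0 < r) (k : ℕ) : confVol d r ∅ k = conf d r k := by
  unfold confVol conf
  congr 1
  ext x
  have := Set.ext_iff.1 (set_eq (d := d) hr k) x
  simp only [mem_ofPred_eq] at this ⊢
  simp only [Set.mem_empty_iff_false, false_implies, implies_true, and_true]
  rw [this]
  refine forall_congr' fun i => forall_congr' fun j => forall_congr' fun _ => ?_
  unfold far
  split_ifs with h
  · exact ⟨fun _ => h, fun _ => rfl⟩
  · exact ⟨fun h' => absurd h' zero_ne_one, fun h' => absurd h' h⟩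

theorem Z_empty (hr : 0 < r) (lam : ℝ) : Z d r lam ∅ = Zr d r lam := by
  unfold Z Zr
  exact tsum_congr fun k => by rw [conf_empty hr]

theorem mean_eq (hr : 0 < r) (lam : ℝ) : meanNumber d r lam = meanr d r lam := by
  unfold meanNumber meanr
  rw [Z_empty hr]
  congr 1
  exact tsum_congr fun k => by rw [conf_empty hr]

theorem pairs_eq (hr : 0 < r) (lam : ℝ) (B : Set (Torus d × Torus d)) :
    meanPairs d r lam B = PP (vol d) (far d r) lam B / PZ (vol d) (far d r) lam := by
  unfold meanPairs PP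
  rw [Z_empty hr, ← PZ_tor]
  congr 1
  refine tsum_congr fun k => ?_
  rw [set_eq hr]

theorem rho_eq (hr : 0 < r) (lam : ℝ) (hl : 0 < lam) (x y : Torus d) :
    rho2 d r lam x y =
      gcor (vol d) (far d r) lam x y * (rho1 d r lam x * rho1 d r lam y) ∧
    0 < rho1 d r lam x := by
  have hp : IsProbabilityMeasure (Pool.Agent.N549.HG.vol d) := inferInstance
  have hp' : IsProbabilityMeasure (vol d) := hp
  have hF := far_adm d r
  have a1 : 1 ≤ Pool.Agent.N549.AB.Z1 (vol d) (far d r) lam x := one_le_Z1 hF lam hl.le x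
  have a2 : 1 ≤ Pool.Agent.N549.AB.Z1 (vol d) (far d r) lam y := one_le_Z1 hF lam hl.le y
  have a3 : 1 ≤ PZ (vol d) (far d r) lam := PZ_ge_one hF lam hl.le
  have b1 : 0 < Pool.Agent.N549.AB.Z1 (vol d) (far d r) lam x := by linarith
  have b2 : 0 < Pool.Agent.N549.AB.Z1 (vol d) (far d r) lam y := by linarith
  have b3 : 0 < PZ (vol d) (far d r) lam := by linarith
  unfold rho2 rho1 gcor
  rw [Z_two hr lam hl.le, Z_one hr lam hl.le, Z_one hr lam hl.le, Z_empty hr, ← PZ_tor]
  refine ⟨?_, by positivity⟩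
  have b1' := b1.ne'
  have b2' := b2.ne'
  have b3' := b3.ne'
  change lam ^ 2 * Pool.Agent.N549.AB.Z2 (vol d) (far d r) lam x y / PZ (vol d) (far d r) lam =
    Pool.Agent.N549.AB.Z2 (vol d) (far d r) lam x y * PZ (vol d) (far d r) lam /
      (Pool.Agent.N549.AB.Z1 (vol d) (far d r) lam x *
        Pool.Agent.N549.AB.Z1 (vol d) (far d r) lam y) *
      (lam * Pool.Agent.N549.AB.Z1 (vol d) (far d r) lam x / PZ (vol d) (far d r) lam *
        (lam * Pool.Agent.N549.AB.Z1 (vol d) (far d r) lam y / PZ (vol d) (far d r) lam))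
  field_simp

end aux

open Pool.Agent.N549.AB in
theorem result : ∀ ε : ℝ, 0 < ε →
    ∃ (a : ℝ) (d₀ : ℕ), 0 < a ∧ ∀ d : ℕ, d₀ ≤ d → ∀ r : ℝ, 0 < r → r ≤ 1 / 4 →
      -- (1) the equation of state with exponentially small errors
      (∀ s : ℝ, 0 < s → s ≤ (X - ε) * d →
        |ballVol d r * meanNumber d r (s * Real.exp s / ballVol d r) - s| ≤
          Real.exp (-(a * d)) * s ∧
        |ballVol d r * Real.log (Z d r (s * Real.exp s / ballVol d r) ∅) - (s + s ^ 2 / 2)| ≤
          Real.exp (-(a * d)) * s) ∧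
      (∀ k : ℕ, Real.exp (-(a * d)) ≤ k * ballVol d r → k * ballVol d r ≤ (X - ε) * d →
        0 < confVol d r ∅ k ∧ |Real.log (confVol d r ∅ k) + k ^ 2 * ballVol d r / 2| ≤
          Real.exp (-(a * d)) * (k ^ 2 * ballVol d r)) ∧
      -- (2) the lower bound for the pair correlations
      (∀ s : ℝ, 0 < s → s ≤ (X - ε) * d →
        (∀ x y : Torus d, r ≤ tdist x y → (1 - Real.exp (-(a * d))) *
          (rho1 d r (s * Real.exp s / ballVol d r) x * rho1 d r (s * Real.exp s / ballVol d r) y) ≤
          rho2 d r (s * Real.exp s / ballVol d r) x y) ∧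
        ∀ B : Set (Torus d × Torus d), MeasurableSet B → (∀ p ∈ B, r ≤ tdist p.1 p.2) →
          (1 - Real.exp (-(a * d))) * (meanNumber d r (s * Real.exp s / ballVol d r) ^ 2 *
            ((vol d).prod (vol d)).real B) ≤ meanPairs d r (s * Real.exp s / ballVol d r) B) ∧
      -- (3) the upper bound
      (∀ s : ℝ, 0 < s → s ≤ (X / 3 - ε) * d →
        (∀ x y : Torus d, r ≤ tdist x y → rho2 d r (s * Real.exp s / ballVol d r) x y ≤
          (1 + Real.exp (-(a * d))) * (rho1 d r (s * Real.exp s / ballVol d r) x *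
            rho1 d r (s * Real.exp s / ballVol d r) y)) ∧
        ∀ B : Set (Torus d × Torus d), MeasurableSet B → (∀ p ∈ B, r ≤ tdist p.1 p.2) →
          meanPairs d r (s * Real.exp s / ballVol d r) B ≤ (1 + Real.exp (-(a * d))) *
            (meanNumber d r (s * Real.exp s / ballVol d r) ^ 2 *
              ((vol d).prod (vol d)).real B)) ∧
      -- (4) the mean measure of the pairs in total variation
      ∀ s : ℝ, Real.exp (-(a * d)) ≤ s → s ≤ (X - ε) * d →
        ∀ B : Set (Torus d × Torus d), MeasurableSet B → (∀ p ∈ B, r ≤ tdist p.1 p.2) →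
          |meanPairs d r (s * Real.exp s / ballVol d r) B -
            meanNumber d r (s * Real.exp s / ballVol d r) ^ 2 * ((vol d).prod (vol d)).real B| ≤
            Real.exp (-(a * d)) * meanNumber d r (s * Real.exp s / ballVol d r) ^ 2 := by
  intro ε hε
  have hM : S_MOM2 := Pool.Agent.N624.DC.mom2
  obtain ⟨a₁, n₁, ha₁, h⟩ := Pool.Agent.N549.DC.mainT Pool.Agent.N344.AB.canx
    Pool.Agent.N572.DC.lenst ε hε
  obtain ⟨a₂, n₂, ha₂, h'⟩ := Pool.Agent.N549.DC.tvT Pool.Agent.N344.AB.canx
    Pool.Agent.N767.DC.var hM Pool.Agent.N572.DC.lenst ε hε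
  refine ⟨min a₁ a₂, max (max n₁ n₂) 1, lt_min ha₁ ha₂, fun d hd r hr hr4 => ?_⟩
  have hd1 : 1 ≤ d := (le_max_right _ _).trans hd
  have hg1 : n₁ ≤ d := ((le_max_left _ _).trans (le_max_left _ _)).trans hd
  have hg2 : n₂ ≤ d := ((le_max_right _ _).trans (le_max_left _ _)).trans hd
  have hd0 : (0 : ℝ) ≤ d := Nat.cast_nonneg d
  obtain ⟨h1, h2, h3, h4⟩ := h d hg1 r hr hr4
  have h5 := h' d hg2 r hr hr4
  have m1 : Real.exp (-(a₁ * d)) ≤ Real.exp (-(min a₁ a₂ * d)) := by
    rw [Real.exp_le_exp]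
    have := mul_le_mul_of_nonneg_right (min_le_left a₁ a₂) hd0
    linarith
  have m2 : Real.exp (-(a₂ * d)) ≤ Real.exp (-(min a₁ a₂ * d)) := by
    rw [Real.exp_le_exp]
    have := mul_le_mul_of_nonneg_right (min_le_right a₁ a₂) hd0
    linarith
  have h3' : ∀ s : ℝ, 0 < s → s ≤ (X - ε) * d → ∀ u v : Torus d,
      1 - Real.exp (-(min a₁ a₂ * d)) ≤ gcor (Pool.Agent.N549.HG.vol d)
        (Pool.Agent.N549.HG.far d r) (Pool.Agent.N549.HG.act d r s) u v := fun s hs hsX u v =>
    le_trans (by linarith) (h3 s hs hsX u v)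
  have h4' : ∀ s : ℝ, 0 < s → s ≤ (X / 3 - ε) * d → ∀ u v : Torus d,
      r ^ 2 ≤ Pool.Agent.N549.HG.sqd u v → gcor (Pool.Agent.N549.HG.vol d)
        (Pool.Agent.N549.HG.far d r) (Pool.Agent.N549.HG.act d r s) u v ≤
        1 + Real.exp (-(min a₁ a₂ * d)) := fun s hs hsX u v huv =>
    le_trans (h4 s hs hsX u v huv) (by linarith)
  have hV : 0 < ballVol d r := Pool.Agent.N549.HG.ballVol_pos hr
  have hp : IsProbabilityMeasure (Pool.Agent.N549.HG.vol d) := inferInstance
  have hG := Pool.Agent.N549.DC.gasT (n := d) (r := r) hd1 hr hr4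
  have hB1 : ∀ B : Set (Torus d × Torus d), (∀ p ∈ B, r ≤ tdist p.1 p.2) →
      ∀ p ∈ B, Pool.Agent.N549.HG.far d r p.1 p.2 = 1 := fun B hB p hp =>
    (key hr _ _).1 (hB p hp)
  refine ⟨fun s hs hsX => ?_, fun k hk hkX => ?_, fun s hs hsX => ⟨fun x y _ => ?_,
    fun B hB hBr => ?_⟩, fun s hs hsX => ⟨fun x y hxy => ?_, fun B hB hBr => ?_⟩,
    fun s hs hsX B hB hBr => ?_⟩
  · obtain ⟨w1, w2⟩ := h1 s hs hsX
    rw [mean_eq hr, Z_empty hr]
    exact ⟨w1.trans (mul_le_mul_of_nonneg_right m1 hs.le),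
      w2.trans (mul_le_mul_of_nonneg_right m1 hs.le)⟩
  · obtain ⟨w1, w2⟩ := h2 k (m1.trans hk) hkX
    rw [conf_empty hr]
    exact ⟨w1, w2.trans (mul_le_mul_of_nonneg_right m1 (by positivity))⟩
  · obtain ⟨e1, e2⟩ := rho_eq hr _ (by positivity : 0 < s * Real.exp s / ballVol d r) x y
    obtain ⟨-, e3⟩ := rho_eq hr _ (by positivity : 0 < s * Real.exp s / ballVol d r) y x
    rw [e1]
    exact mul_le_mul_of_nonneg_right (h3' s hs hsX x y) (by positivity)
  · have := (pairs hM hG s hs B hB (hB1 B hBr) (Real.exp (-(min a₁ a₂ * d)))).1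
      (fun u v => h3' s hs hsX u v)
    rw [pairs_eq hr, mean_eq hr, ← Pool.Agent.N549.DC.PM_tor]
    exact this
  · obtain ⟨e1, e2⟩ := rho_eq hr _ (by positivity : 0 < s * Real.exp s / ballVol d r) x y
    obtain ⟨-, e3⟩ := rho_eq hr _ (by positivity : 0 < s * Real.exp s / ballVol d r) y x
    rw [e1]
    refine mul_le_mul_of_nonneg_right (h4' s hs hsX x y ?_) (by positivity)
    unfold tdist at hxy
    rwa [Real.le_sqrt' hr] at hxy
  · have := (pairs hM hG s hs B hB (hB1 B hBr) (Real.exp (-(min a₁ a₂ * d)))).2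
      (fun u v huv => h4' s hs hsX u v (by
        unfold Pool.Agent.N549.HG.far at huv
        by_contra hcon
        rw [if_neg hcon] at huv
        exact zero_ne_one huv))
    rw [pairs_eq hr, mean_eq hr, ← Pool.Agent.N549.DC.PM_tor]
    exact this
  · have := h5 s (m2.trans hs) hsX B hB (hB1 B hBr)
    rw [pairs_eq hr, mean_eq hr]
    exact this.trans (mul_le_mul_of_nonneg_right m2 (by positivity))

end Pool.Agent.Results.MP_09cbbd_mp.Decorrelation
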