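import Pool.Agent.N549.HG.Thermo2
import Pool.Agent.N707.HG.Lowd
import Pool.Agent.N55.HG.Reg

/-!
# The free energy of hard spheres in high dimension

Hard spheres of radius `a` in `ℝ^d`; `V` is the volume of the ball of radius `2a`. In high dimension
the limiting free energy per particle at density `ρ` is `log ρ - 1 + (1 + o(1)) ρ V / 2`, uniformly
for `0 < ρ V ≤ ((1 - log 2) / 2 - ε) d`; hence in this range there is no first order phase transition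
with a macroscopic relative jump of the density. The same holds in the grand canonical ensemble with
arbitrary boundary conditions.
-/

open MeasureTheory Metric Filter Set
open scoped Topology

namespace Pool.Agent.Results.MP_09cbbd_mp.HighDimension

/-- The hard-sphere partition function of the cube of side `L`: `(1 / N!)` times the volume of the
configurations of `N` points of the cube with mutual distances at least `2a`. -/
noncomputable def boxZ (d : ℕ) (a L : ℝ) (N : ℕ) : ℝ :=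
  ((N.factorial : ℝ))⁻¹ * (volume {x : Fin N → Fin d → ℝ |
    (∀ i k, x i k ∈ Set.Icc (0 : ℝ) L) ∧
    ∀ i j, i ≠ j → (2 * a) ^ 2 ≤ ∑ k, (x i k - x j k) ^ 2}).toReal

/-- `N_j` particles in cubes of side `L_j → ∞`, with density tending to `ρ`. -/
def Thermodynamic (d : ℕ) (ρ : ℝ) (N : ℕ → ℕ) (L : ℕ → ℝ) : Prop :=
  Tendsto L atTop atTop ∧ Tendsto (fun j => (N j : ℝ) / L j ^ d) atTop (𝓝 ρ)

/-- `f` is the limiting free energy per particle at density `ρ`. -/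
def IsFreeEnergy (d : ℕ) (a ρ f : ℝ) : Prop :=
  ∀ (N : ℕ → ℕ) (L : ℕ → ℝ), Thermodynamic d ρ N L →
    Tendsto (fun j => -(Real.log (boxZ d a (L j) (N j))) / N j) atTop (𝓝 f)

/-- The volume `V` of the ball of radius `2a` (the excluded volume of a sphere of radius `a`). -/
noncomputable def exclVol (d : ℕ) (a : ℝ) : ℝ :=
  volume.real (ball (0 : EuclideanSpace ℝ (Fin d)) (2 * a))

/-- The grand canonical partition function of the region `R` at activity `lam`. -/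
noncomputable def grandZ (d : ℕ) (a : ℝ) (R : Set (Fin d → ℝ)) (lam : ℝ) : ℝ :=
  ∑' N : ℕ, lam ^ N / N.factorial * (volume {x : Fin N → Fin d → ℝ | (∀ i, x i ∈ R) ∧
    ∀ i j, i ≠ j → (2 * a) ^ 2 ≤ ∑ k, (x i k - x j k) ^ 2}).toReal

/-- The expected number of spheres of the gas in the region `R` at activity `lam`. -/
noncomputable def meanNumber (d : ℕ) (a : ℝ) (R : Set (Fin d → ℝ)) (lam : ℝ) : ℝ :=
  (∑' N : ℕ, N * (lam ^ N / N.factorial * (volume {x : Fin N → Fin d → ℝ | (∀ i, x i ∈ R) ∧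
    ∀ i j, i ≠ j → (2 * a) ^ 2 ≤ ∑ k, (x i k - x j k) ^ 2}).toReal)) / grandZ d a R lam

theorem exclVol_eq (d : ℕ) (a : ℝ) : exclVol d a = Pool.Agent.N549.HG.ballVol d (2 * a) := rfl

theorem boxZ_eq (d : ℕ) (a L : ℝ) (N : ℕ) :
    boxZ d a L N = (N.factorial : ℝ)⁻¹ * Pool.Agent.N549.HG.boxVol d (2 * a) L N := rfl

open Pool.Agent.N549.HG in
theorem free_energy' (hlow : S_LOWD) (ε : ℝ) (hε : 0 < ε) : ∃ d₀ : ℕ, ∀ d : ℕ, d₀ ≤ d →
    ∀ a ρ : ℝ, 0 < a → 0 < ρ → ρ * exclVol d a ≤ ((1 - Real.log 2) / 2 - ε) * d →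
    ∀ (N : ℕ → ℕ) (L : ℕ → ℝ), Thermodynamic d ρ N L →
      ∀ᶠ j in atTop, 0 < boxZ d a (L j) (N j) ∧
        |-(Real.log (boxZ d a (L j) (N j))) / N j -
          (Real.log ρ - 1 + ρ * exclVol d a / 2)| ≤ ε * (ρ * exclVol d a) := by
  obtain ⟨d₀, h⟩ := free_energy hlow ε hε
  refine ⟨d₀, fun d hd a ρ ha hρ hX N L hT => ?_⟩
  filter_upwards [h d hd (2 * a) ρ (by positivity) hρ hX N L hT.1 hT.2] with j hj
  exact ⟨mul_pos (by positivity) hj.1, hj.2⟩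

/-- There are sequences with every density. -/
theorem exists_thermo (d : ℕ) (hd : 1 ≤ d) (ρ : ℝ) (hρ : 0 < ρ) :
    ∃ (N : ℕ → ℕ) (L : ℕ → ℝ), Thermodynamic d ρ N L := by
  refine ⟨fun j => ⌊ρ * (j : ℝ) ^ d⌋₊, fun j => j, tendsto_natCast_atTop_atTop, ?_⟩
  have h1 : Tendsto (fun j : ℕ => (j : ℝ) ^ d) atTop atTop :=
    (tendsto_pow_atTop (by omega)).comp tendsto_natCast_atTop_atTop
  exact (tendsto_nat_floor_mul_div_atTop hρ.le).comp h1

theorem result :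
    -- (1) the free energy
    (∀ ε : ℝ, 0 < ε → ∃ d₀ : ℕ, ∀ d : ℕ, d₀ ≤ d → ∀ a ρ : ℝ, 0 < a → 0 < ρ →
      ρ * exclVol d a ≤ ((1 - Real.log 2) / 2 - ε) * d →
      ∀ (N : ℕ → ℕ) (L : ℕ → ℝ), Thermodynamic d ρ N L →
        ∀ᶠ j in atTop, 0 < boxZ d a (L j) (N j) ∧
          |-(Real.log (boxZ d a (L j) (N j))) / N j -
            (Real.log ρ - 1 + ρ * exclVol d a / 2)| ≤ ε * (ρ * exclVol d a)) ∧
    (∀ ε : ℝ, 0 < ε → ∃ d₀ : ℕ, ∀ d : ℕ, d₀ ≤ d → ∀ a ρ f : ℝ, 0 < a → 0 < ρ →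
      ρ * exclVol d a ≤ ((1 - Real.log 2) / 2 - ε) * d → IsFreeEnergy d a ρ f →
        |f - (Real.log ρ - 1 + ρ * exclVol d a / 2)| ≤ ε * (ρ * exclVol d a)) ∧
    -- (2) no first order transition with a macroscopic relative jump of the density
    (∀ δ : ℝ, 0 < δ → ∃ d₀ : ℕ, ∀ d : ℕ, d₀ ≤ d → ∀ a ρ₁ ρ₂ p c : ℝ, 0 < a → 0 < ρ₁ → ρ₁ ≤ ρ₂ →
      ρ₂ * exclVol d a ≤ ((1 - Real.log 2) / 2 - δ) * d → ∀ f : ℝ → ℝ,
      (∀ ρ ∈ Icc ρ₁ ρ₂, IsFreeEnergy d a ρ (f ρ)) →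
      (∀ ρ ∈ Icc ρ₁ ρ₂, f ρ = c - p / ρ) → ρ₂ - ρ₁ ≤ δ * ρ₂) ∧
    -- (3) arbitrary boundary conditions
    (∀ ε : ℝ, 0 < ε → ∃ d₀ : ℕ, ∀ d : ℕ, d₀ ≤ d → ∀ a : ℝ, 0 < a → ∃ L₀ : ℝ, ∀ L : ℝ, L₀ ≤ L →
      ∀ R : Set (Fin d → ℝ), MeasurableSet R →
      (∀ x, (∀ k, x k ∈ Icc (2 * a) (L - 2 * a)) → x ∈ R) →
      (∀ x ∈ R, ∀ k, x k ∈ Icc (0 : ℝ) L) →
      ∀ s : ℝ, 0 < s → s * Real.exp s ≤ Real.exp (((1 - Real.log 2) / 2 - ε) * d) →
        |exclVol d a / L ^ d * meanNumber d a R (s * Real.exp s / exclVol d a) - s| ≤ ε * s ∧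
        |exclVol d a / L ^ d * Real.log (grandZ d a R (s * Real.exp s / exclVol d a)) -
          (s + s ^ 2 / 2)| ≤ ε * (s + s ^ 2 / 2)) := by
  have hlow : Pool.Agent.N549.HG.S_LOWD := Pool.Agent.N707.HG.lowd
  have hreg : Pool.Agent.N549.HG.S_REG := Pool.Agent.N55.HG.reg
  have h1 := free_energy' hlow
  have h2 : ∀ ε : ℝ, 0 < ε → ∃ d₀ : ℕ, ∀ d : ℕ, d₀ ≤ d → ∀ a ρ f : ℝ, 0 < a → 0 < ρ →
      ρ * exclVol d a ≤ ((1 - Real.log 2) / 2 - ε) * d → IsFreeEnergy d a ρ f →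
        |f - (Real.log ρ - 1 + ρ * exclVol d a / 2)| ≤ ε * (ρ * exclVol d a) := by
    intro ε hε
    obtain ⟨d₀, h⟩ := h1 ε hε
    refine ⟨max d₀ 1, fun d hd a ρ f ha hρ hX hf => ?_⟩
    obtain ⟨N, L, hT⟩ := exists_thermo d ((le_max_right _ _).trans hd) ρ hρ
    have h3 := h d ((le_max_left _ _).trans hd) a ρ ha hρ hX N L hT
    exact le_of_tendsto ((hf N L hT).sub_const _).abs (h3.mono fun j hj => hj.2)
  refine ⟨h1, h2, ?_, ?_⟩
  · intro δ hδ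
    obtain ⟨d₀, h⟩ := h2 (min δ (δ ^ 2 / 16)) (by positivity)
    refine ⟨d₀, fun d hd a ρ₁ ρ₂ p c ha hρ₁ h12 hX f hf hp => ?_⟩
    have hV : 0 < exclVol d a := Pool.Agent.N549.HG.ballVol_pos (by positivity)
    refine Pool.Agent.N549.HG.no_jump (α := -p) (β := c) hV hδ hρ₁ h12 f ?_ ?_
    · intro ρ hρ
      have hρ0 : 0 < ρ := lt_of_lt_of_le hρ₁ hρ.1
      have h3 : ρ * exclVol d a ≤ ((1 - Real.log 2) / 2 - min δ (δ ^ 2 / 16)) * d := by
        calc ρ * exclVol d a ≤ ρ₂ * exclVol d a := mul_le_mul_of_nonneg_right hρ.2 hV.le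
          _ ≤ ((1 - Real.log 2) / 2 - δ) * d := hX
          _ ≤ _ := mul_le_mul_of_nonneg_right (by linarith [min_le_left δ (δ ^ 2 / 16)])
            (Nat.cast_nonneg d)
      refine (h d hd a ρ (f ρ) ha hρ0 h3 (hf ρ hρ)).trans ?_
      exact mul_le_mul_of_nonneg_right (min_le_right _ _) (by positivity)
    · intro ρ hρ
      have hρ0 : 0 < ρ := lt_of_lt_of_le hρ₁ hρ.1
      rw [hp ρ hρ]
      field_simp
      ring
  · intro ε hε
    obtain ⟨d₀, h⟩ := Pool.Agent.N549.HG.grand hreg ε hε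
    refine ⟨d₀, fun d hd a ha => ?_⟩
    obtain ⟨L₀, h3⟩ := h d hd (2 * a) (by positivity)
    exact ⟨L₀, fun L hL R hR hR1 hR2 s hs hsX => h3 L hL R hR hR1 hR2 s hs hsX⟩

end Pool.Agent.Results.MP_09cbbd_mp.HighDimension
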